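import Mathlib
import Pool.Agent.H26.EU

namespace Pool.Agent.Results.MP_8a0632_lc.NotErdosUlam

open Set Filter Topology Pool.Agent.H26.EU

def IsIdeal (I : Set (Set ℕ)) : Prop :=
  (∀ A ∈ I, ∀ B ⊆ A, B ∈ I) ∧ (∀ A ∈ I, ∀ B ∈ I, A ∪ B ∈ I) ∧ (∀ A : Set ℕ, A.Finite → A ∈ I) ∧
    univ ∉ I

open Classical in
/-- the density zero ideal -/
def Z : Set (Set ℕ) :=
  {A | Tendsto (fun n : ℕ => (((Finset.range n).filter (· ∈ A)).card : ℝ) / n) atTop (𝓝 0)}

/-- admissible weights of an Erdős–Ulam ideal -/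
def EUWeight (f : ℕ → ℝ) : Prop :=
  (∀ i, 0 ≤ f i) ∧ Tendsto (fun n => ∑ i ∈ Finset.range n, f i) atTop atTop ∧
    Tendsto (fun n => f n / ∑ i ∈ Finset.range (n + 1), f i) atTop (𝓝 0)

open Classical in
def EU (f : ℕ → ℝ) : Set (Set ℕ) :=
  {A | Tendsto (fun n => (∑ i ∈ (Finset.range n).filter (· ∈ A), f i) /
    ∑ i ∈ Finset.range n, f i) atTop (𝓝 0)}

/-- Rudin–Blass order -/
def RB (I J : Set (Set ℕ)) : Prop :=
  ∃ φ : ℕ → ℕ, (∀ y, (φ ⁻¹' {y}).Finite) ∧ ∀ A, A ∈ I ↔ φ ⁻¹' A ∈ J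

/-- Katětov order -/
def Kat (I J : Set (Set ℕ)) : Prop := ∃ φ : ℕ → ℕ, ∀ A ∈ I, φ ⁻¹' A ∈ J

open Classical in
noncomputable def cnt (A : Set ℕ) (k : ℕ) : ℕ :=
  ((Finset.range (2 ^ k)).filter (fun t => 2 ^ k - 1 + t ∈ A)).card

noncomputable def d (A : Set ℕ) (k : ℕ) : ℝ := cnt A k / 2 ^ k

lemma log_eq {k t : ℕ} (h : t < 2 ^ k) : Nat.log 2 (2 ^ k - 1 + t + 1) = k := by
  have := Nat.two_pow_pos k
  apply Nat.log_eq_of_pow_le_of_lt_pow <;> [omega; (rw [pow_succ]; omega)]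

lemma log_spec (i : ℕ) : ∃ t < 2 ^ Nat.log 2 (i + 1), i = 2 ^ Nat.log 2 (i + 1) - 1 + t := by
  have h1 := Nat.pow_log_le_self 2 (Nat.succ_ne_zero i)
  have h2 := Nat.lt_pow_succ_log_self (b := 2) (by norm_num) (i + 1)
  have := Nat.two_pow_pos (Nat.log 2 (i + 1))
  rw [pow_succ] at h2
  simp only [Nat.succ_eq_add_one] at h1
  exact ⟨i + 1 - 2 ^ Nat.log 2 (i + 1), by omega, by omega⟩

lemma Z_iff (A : Set ℕ) : A ∈ Z ↔ Tendsto (d A) atTop (𝓝 0) := by
  classical
  have hF : ∀ n, F (fun _ => (1 : ℝ)) n = n := fun n => by simp [F]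
  have h1 : Tendsto (F fun _ => (1 : ℝ)) atTop atTop :=
    tendsto_natCast_atTop_atTop.congr fun n => (hF n).symm
  have hc : ∀ i, cl (fun _ => (1 : ℝ)) i = Nat.log 2 (i + 1) := fun i => by
    rw [cl, hF, Nat.floor_natCast]
  have := EU_iff (fun _ => zero_le_one) h1 A
  have e : m h1 A = d A := by
    funext j
    simp only [m, d, cnt, Finset.sum_const, nsmul_eq_mul, mul_one]
    congr 2
    symm
    refine Finset.card_bij (fun t _ => 2 ^ j - 1 + t) (fun t ht => ?_) (fun a _ b _ h => by omega)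
      (fun i hi => ?_)
    · simp only [Finset.mem_filter, Finset.mem_range, Finite.mem_toFinset, mem_setOf_eq, hc] at ht ⊢
      exact ⟨log_eq ht.1, ht.2⟩
    · simp only [Finset.mem_filter, Finset.mem_range, Finite.mem_toFinset, mem_setOf_eq, hc] at hi ⊢
      obtain ⟨t, h1, h2⟩ := log_spec i
      rw [hi.1] at h1 h2
      exact ⟨t, ⟨h1, h2 ▸ hi.2⟩, h2.symm⟩
  rw [← e, ← this]
  simp only [Z, mem_setOf_eq, S, hF, Finset.sum_const, nsmul_eq_mul, mul_one]

lemma d_nonneg (A : Set ℕ) (k : ℕ) : 0 ≤ d A k := by unfold d; positivity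

lemma d_le {A B : Set ℕ} {k : ℕ} (h : ∀ t < 2 ^ k, 2 ^ k - 1 + t ∈ A → 2 ^ k - 1 + t ∈ B) :
    d A k ≤ d B k := by
  classical
  unfold d cnt
  refine div_le_div_of_nonneg_right (Nat.cast_le.2 (Finset.card_le_card fun t ht => ?_))
    (by positivity)
  rw [Finset.mem_filter] at ht ⊢
  exact ⟨ht.1, h t (Finset.mem_range.1 ht.1) ht.2⟩

lemma d_one {A : Set ℕ} {k : ℕ} (h : ∀ t < 2 ^ k, 2 ^ k - 1 + t ∈ A) : d A k = 1 := by
  classical
  unfold d cnt
  rw [Finset.filter_true_of_mem fun t ht => h t (Finset.mem_range.1 ht)]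
  simp

def I : Set (Set ℕ) := {A | Nat.sqrt '' A ∈ Z}

lemma I_ideal : IsIdeal I := by
  classical
  refine ⟨fun A hA B h => ?_, fun A hA B hB => ?_, fun A hA => ?_, fun h => ?_⟩ <;>
    simp only [I, mem_setOf_eq, Z_iff] at *
  · exact squeeze_zero (d_nonneg _) (fun k => d_le fun t _ x => image_mono h x) hA
  · refine squeeze_zero (d_nonneg _) (fun k => ?_) (by simpa using hA.add hB)
    unfold d cnt
    rw [← add_div, image_union]
    gcongr
    simp only [mem_union, Finset.filter_or]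
    exact_mod_cast Finset.card_union_le _ _
  · obtain ⟨N, hN⟩ := (hA.image Nat.sqrt).bddAbove
    refine tendsto_const_nhds.congr' ((eventually_gt_atTop N).mono fun k hk => ?_)
    have := Nat.lt_two_pow_self (n := k)
    unfold d cnt
    rw [Finset.filter_false_of_mem fun t _ c => by have := hN c; omega]
    simp
  · have : d (Nat.sqrt '' univ) = fun _ => 1 :=
      funext fun k => d_one fun t _ => ⟨_, trivial, Nat.sqrt_eq' _⟩
    rw [this] at h
    simpa using h

lemma RB_ZI : RB Z I := by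
  refine ⟨Nat.sqrt, fun y => (finite_Iio ((y + 1) ^ 2)).subset fun x hx => ?_, fun A => ?_⟩
  · have := Nat.lt_succ_sqrt' x
    rwa [show x.sqrt = y from hx] at this
  · rw [I, mem_setOf_eq, image_preimage_eq _ fun y => ⟨_, Nat.sqrt_eq' y⟩]

/-- block index and code attached to the `n`-th dyadic interval -/
def par (n : ℕ) : ℕ × ℕ :=
  if n.unpair.2 < (2 ^ (n.unpair.1 + 2)) ^ 2 ^ n.unpair.1 then n.unpair else (n, 0)

def off (k c t : ℕ) : ℕ :=
  if h : c < (2 ^ (k + 2)) ^ 2 ^ k ∧ t < 2 ^ k then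
    (finFunctionFinEquiv.symm ⟨c, h.1⟩ ⟨t, h.2⟩ : Fin (2 ^ (k + 2))) else 0

def sel (k c t : ℕ) : ℕ := (2 ^ k - 1 + t) ^ 2 + min (off k c t) (2 * (2 ^ k - 1 + t))

def φ (i : ℕ) : ℕ :=
  sel (par (Nat.log 2 (i + 1))).1 (par (Nat.log 2 (i + 1))).2
    ((i + 1 - 2 ^ Nat.log 2 (i + 1)) % 2 ^ (par (Nat.log 2 (i + 1))).1)

lemma par_le (n : ℕ) : (par n).1 ≤ n := by
  unfold par; split_ifs
  exacts [Nat.unpair_left_le n, le_rfl]

lemma par_fin (k : ℕ) : {n | (par n).1 ≤ k}.Finite := by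
  refine ((finite_Iic k).union (((finite_Iic k).biUnion fun a _ =>
    (finite_Iio ((2 ^ (a + 2)) ^ 2 ^ a)).image (Nat.pair a)))).subset fun n hn => ?_
  simp only [par, mem_setOf_eq] at hn
  split_ifs at hn with h
  · exact Or.inr (mem_iUnion₂.2 ⟨_, hn, _, h, Nat.pair_unpair n⟩)
  · exact Or.inl hn

lemma par_tend : Tendsto (fun n => (par n).1) atTop atTop := by
  refine tendsto_atTop.2 fun k => ?_
  rw [← Nat.cofinite_eq_atTop]
  exact (par_fin k).subset fun n (hn : ¬ k ≤ (par n).1) => (not_le.1 hn).le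

lemma sqrt_sel (k c t : ℕ) : (sel k c t).sqrt = 2 ^ k - 1 + t :=
  Nat.sqrt_add_eq' _ ((min_le_right _ _).trans (by omega))

lemma count_mod (P : ℕ → Prop) [DecidablePred P] (a b : ℕ) :
    Nat.count (fun t => P (t % b)) (b * a) = a * Nat.count P b := by
  induction a with
  | zero => simp
  | succ a ih =>
    rw [Nat.mul_succ, Nat.count_add, ih, Nat.succ_mul]
    congr 1
    rw [Nat.count_eq_card_filter_range, Nat.count_eq_card_filter_range]
    congr 1
    refine Finset.filter_congr fun t ht => ?_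
    rw [Nat.mul_add_mod, Nat.mod_eq_of_lt (Finset.mem_range.1 ht)]

lemma φ_eq {n t : ℕ} (ht : t < 2 ^ n) :
    φ (2 ^ n - 1 + t) = sel (par n).1 (par n).2 (t % 2 ^ (par n).1) := by
  have := Nat.two_pow_pos n
  rw [φ, log_eq ht, show 2 ^ n - 1 + t + 1 - 2 ^ n = t by omega]

open Classical in
lemma cnt_eq (A : Set ℕ) (n : ℕ) (P : ℕ → Prop) (h : ∀ t < 2 ^ n, 2 ^ n - 1 + t ∈ A ↔ P t) :
    cnt A n = Nat.count P (2 ^ n) := by
  rw [Nat.count_eq_card_filter_range, cnt]
  exact congrArg Finset.card (Finset.filter_congr fun t ht => h t (Finset.mem_range.1 ht))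

lemma d_pre (A : Set ℕ) (n : ℕ) : d (φ ⁻¹' A) n =
    d {x | sel (par n).1 (par n).2 (x + 1 - 2 ^ (par n).1) ∈ A} (par n).1 := by
  classical
  obtain ⟨e, he⟩ := Nat.exists_eq_add_of_le (par_le n)
  have h1 := cnt_eq (φ ⁻¹' A) n (fun t => sel (par n).1 (par n).2 (t % 2 ^ (par n).1) ∈ A)
    fun t ht => by rw [mem_preimage, φ_eq ht]
  generalize (par n).1 = k at *
  generalize (par n).2 = c at *
  have h2 := cnt_eq {x | sel k c (x + 1 - 2 ^ k) ∈ A} k (fun t => sel k c t ∈ A) fun t _ => by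
    have := Nat.two_pow_pos k
    rw [mem_setOf_eq, show 2 ^ k - 1 + t + 1 - 2 ^ k = t by omega]
  have h3 := count_mod (fun t => sel k c t ∈ A) (2 ^ e) (2 ^ k)
  rw [← pow_add, ← he] at h3
  have h4 : cnt (φ ⁻¹' A) n = 2 ^ e * cnt {x | sel k c (x + 1 - 2 ^ k) ∈ A} k := by
    rw [h1, h2]; convert h3
  rw [d, d, h4]
  have : (2 : ℝ) ^ n = 2 ^ k * 2 ^ e := by rw [← pow_add, ← he]
  rw [this]; push_cast; field_simp

lemma RB_IZ : RB I Z := by
  classical
  refine ⟨φ, fun y => ?_, fun A => ?_⟩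
  · obtain ⟨N, hN⟩ := (par_fin y).bddAbove
    refine (finite_Iio (2 ^ (N + 1))).subset fun i hi => ?_
    have h1 := congrArg Nat.sqrt (show φ i = y from hi)
    rw [φ, sqrt_sel] at h1
    have h2 := Nat.sqrt_le_self y
    have h3 := Nat.lt_two_pow_self (n := (par (Nat.log 2 (i + 1))).1)
    have h4 := hN (show Nat.log 2 (i + 1) ∈ {n | (par n).1 ≤ y} by simp only [mem_setOf_eq]; omega)
    have h5 := Nat.lt_pow_succ_log_self (b := 2) (by norm_num) (i + 1)
    have h6 : 2 ^ (Nat.log 2 (i + 1)).succ ≤ 2 ^ (N + 1) := Nat.pow_le_pow_right (by norm_num)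
      (Nat.succ_le_succ h4)
    simp only [mem_Iio]; omega
  simp only [I, mem_setOf_eq, Z_iff]
  constructor
  · intro h
    refine squeeze_zero (d_nonneg _) (fun n => ?_) (h.comp par_tend)
    rw [d_pre]
    refine d_le fun t _ ht => ⟨_, ht, ?_⟩
    have := Nat.two_pow_pos (par n).1
    rw [sqrt_sel]; omega
  · intro h
    have ex : ∀ k, ∃ n, k ≤ n ∧ d (Nat.sqrt '' A) k ≤ d (φ ⁻¹' A) n := by
      intro k
      have : ∀ t : Fin (2 ^ k), ∃ o : Fin (2 ^ (k + 2)), 2 ^ k - 1 + t.val ∈ Nat.sqrt '' A →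
          o.val ≤ 2 * (2 ^ k - 1 + t.val) ∧ (2 ^ k - 1 + t.val) ^ 2 + o.val ∈ A := by
        intro t
        by_cases c : 2 ^ k - 1 + t.val ∈ Nat.sqrt '' A
        · obtain ⟨p, hp, e⟩ := c
          have a := Nat.sqrt_le' p
          have b := Nat.lt_succ_sqrt' p
          rw [e] at a b
          have := t.2
          have b' : p - (2 ^ k - 1 + t.val) ^ 2 ≤ 2 * (2 ^ k - 1 + t.val) := by
            rw [Nat.succ_eq_add_one, add_sq] at b; omega
          refine ⟨⟨p - (2 ^ k - 1 + t.val) ^ 2, by rw [pow_add]; omega⟩, fun _ => ⟨b', ?_⟩⟩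
          simp only
          rwa [Nat.add_sub_cancel' a]
        · exact ⟨⟨0, Nat.two_pow_pos _⟩, fun x => (c x).elim⟩
      choose g hg using this
      have hp : par (Nat.pair k (finFunctionFinEquiv g)) = (k, (finFunctionFinEquiv g : ℕ)) := by
        rw [par, Nat.unpair_pair, if_pos (finFunctionFinEquiv g).2]
      refine ⟨Nat.pair k (finFunctionFinEquiv g), Nat.left_le_pair _ _, ?_⟩
      rw [d_pre, hp]
      refine d_le fun t ht h => ?_
      have := Nat.two_pow_pos k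
      obtain ⟨a, b⟩ := hg ⟨t, ht⟩ h
      simp only [mem_setOf_eq]
      rw [show 2 ^ k - 1 + t + 1 - 2 ^ k = t by omega, sel, off,
        dif_pos ⟨(finFunctionFinEquiv g).2, ht⟩]
      simp only [Fin.eta, Equiv.symm_apply_apply]
      rwa [min_eq_left a]
    choose n h1 h2 using ex
    exact squeeze_zero (d_nonneg _) h2 (h.comp (tendsto_atTop_mono h1 tendsto_id))

def pt (k t y : ℕ) : ℕ := (2 ^ k - 1 + t) ^ 2 + y

lemma sqrt_pt {k t y : ℕ} (h : y < 2 ^ k) : (pt k t y).sqrt = 2 ^ k - 1 + t :=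
  Nat.sqrt_add_eq' _ (by omega)

section
variable {f : ℕ → ℝ} (h0 : ∀ i, 0 ≤ f i) (h1 : Tendsto (F f) atTop atTop) (σ : ℕ ≃ ℕ)

noncomputable def w (f : ℕ → ℝ) (σ : ℕ ≃ ℕ) (j p : ℕ) : ℝ :=
  if cl f (σ.symm p) = j then f (σ.symm p) / 2 ^ j else 0

lemma m_fin (s : Finset ℕ) (j : ℕ) : m h1 (σ ⁻¹' s) j = ∑ p ∈ s, w f σ j p := by
  classical
  simp only [w]
  rw [m, ← Finset.sum_filter, Finset.sum_div]
  refine Finset.sum_bij' (fun i _ => σ i) (fun p _ => σ.symm p) ?_ ?_ ?_ ?_ ?_ <;>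
    simp +contextual

include h0 in
lemma m_mono {A B : Set ℕ} (j : ℕ) (h : ∀ i, cl f i = j → i ∈ A → i ∈ B) :
    m h1 A j ≤ m h1 B j := by
  classical
  unfold m
  refine div_le_div_of_nonneg_right (Finset.sum_le_sum_of_subset_of_nonneg (fun i hi => ?_)
    fun i _ _ => h0 i) (by positivity)
  simp only [Finset.mem_filter, Finite.mem_toFinset, mem_setOf_eq] at hi ⊢
  exact ⟨hi.1, h i hi.1 hi.2⟩

include h0 in
lemma w_nonneg (j p : ℕ) : 0 ≤ w f σ j p := by
  unfold w; split_ifs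
  · exact div_nonneg (h0 _) (by positivity)
  · rfl

include h1 in
lemma cl_far (J : ℕ) : ∃ P, ∀ p ≥ P, J ≤ cl f (σ.symm p) :=
  eventually_atTop.1 (((cl_tend h1).comp σ.symm.injective.nat_tendsto_atTop).eventually_ge_atTop J)

include h0 in
lemma claim (hI : ∀ A, A ∈ I → Tendsto (m h1 (σ ⁻¹' A)) atTop (𝓝 0)) {ε : ℝ} (hε : 0 < ε) :
    ∃ D : ℕ, ∀ᶠ k in atTop, ∀ (j : ℕ) (s : Finset ℕ), (∀ p ∈ s, Nat.log 2 (p.sqrt + 1) = k) →
      s.card * (D + 1) ≤ 2 ^ k → ∑ p ∈ s, w f σ j p < ε := by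
  classical
  by_contra c
  simp only [not_exists, not_eventually, not_forall, not_lt] at c
  obtain ⟨k, hk, h⟩ := extraction_forall_of_frequently c
  choose j s s1 s2 s3 using h
  have hA : (⋃ n, (s n : Set ℕ)) ∈ I := by
    simp only [I, mem_setOf_eq, Z_iff]
    rw [Metric.tendsto_atTop]
    intro η hη
    obtain ⟨n0, hn0⟩ := exists_nat_one_div_lt hη
    refine ⟨k n0, fun l hl => ?_⟩
    rw [Real.dist_eq, sub_zero, abs_of_nonneg (d_nonneg _ _)]
    have key : ∀ t < 2 ^ l, 2 ^ l - 1 + t ∈ Nat.sqrt '' (⋃ n, (s n : Set ℕ)) →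
        ∃ n, k n = l ∧ ∃ p ∈ s n, p.sqrt = 2 ^ l - 1 + t := by
      rintro t ht ⟨p, hp, e⟩
      obtain ⟨n, hn⟩ := mem_iUnion.1 hp
      exact ⟨n, by rw [← s1 n p hn, e, log_eq ht], p, hn, e⟩
    by_cases ex : ∃ n, k n = l
    · obtain ⟨n, rfl⟩ := ex
      have a : cnt (Nat.sqrt '' (⋃ n, (s n : Set ℕ))) (k n) ≤ (s n).card := by
        refine le_trans (Finset.card_le_card (t := (s n).image fun p => p.sqrt + 1 - 2 ^ k n)
          fun t ht => ?_) Finset.card_image_le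
        rw [Finset.mem_filter, Finset.mem_range] at ht
        obtain ⟨n', e, p, hp, e'⟩ := key t ht.1 ht.2
        obtain rfl := hk.injective e
        have := Nat.two_pow_pos (k n')
        exact Finset.mem_image.2 ⟨p, hp, by omega⟩
      have b : n0 ≤ n := hk.le_iff_le.1 hl
      have c : cnt (Nat.sqrt '' (⋃ n, (s n : Set ℕ))) (k n) * (n0 + 1) ≤ 2 ^ k n :=
        (Nat.mul_le_mul a (Nat.succ_le_succ b)).trans (s2 n)
      refine lt_of_le_of_lt ?_ hn0
      rw [d, div_le_div_iff₀ (by positivity) (by positivity), one_mul]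
      exact_mod_cast c
    · unfold d cnt
      rw [Finset.filter_false_of_mem fun t ht c => by
        obtain ⟨n, e, -⟩ := key t (Finset.mem_range.1 ht) c
        exact ex ⟨n, e⟩]
      simpa using hη
  obtain ⟨J, hJ⟩ := eventually_atTop.1 ((hI _ hA).eventually (gt_mem_nhds hε))
  obtain ⟨P, hP⟩ := cl_far h1 σ J
  have a : ∃ p ∈ s P, cl f (σ.symm p) = j P := by
    by_contra c
    push Not at c
    have := s3 P
    rw [Finset.sum_eq_zero (f := w f σ (j P)) fun p hp => if_neg (c p hp)] at this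
    linarith
  obtain ⟨p, hp, e⟩ := a
  have b : P ≤ p := by
    have b1 := Nat.pow_log_le_self 2 (Nat.succ_ne_zero p.sqrt)
    simp only [Nat.succ_eq_add_one, s1 P p hp] at b1
    have b2 := Nat.lt_two_pow_self (n := k P)
    have b3 := hk.le_apply (x := P)
    have b4 := Nat.sqrt_le_self p
    omega
  have c := hJ (j P) (e ▸ hP p b)
  have d := s3 P
  rw [← m_fin h1] at d
  exact absurd (d.trans (m_mono h0 h1 (B := σ ⁻¹' ⋃ n, (s n : Set ℕ)) _ fun i _ hi =>
    preimage_mono (subset_iUnion (fun n => (s n : Set ℕ)) P) hi)) (not_le.2 c)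

include h0 in
lemma choose_graph (h2 : Tendsto (fun n => f n / F f (n + 1)) atTop (𝓝 0))
    (hI : ∀ A, A ∈ I → Tendsto (m h1 (σ ⁻¹' A)) atTop (𝓝 0)) {ε : ℝ} (hε : 0 < ε) :
    ∀ᶠ k in atTop, ∃ G : Finset ℕ, (∀ t < 2 ^ k, 2 ^ k - 1 + t ∈ Nat.sqrt '' G) ∧
      ∀ j, ∑ p ∈ G, w f σ j p ≤ ε := by
  classical
  obtain ⟨D, hD⟩ := claim h0 h1 σ hI hε
  set a : ℝ := ε ^ 2 / (4 * (D + 1)) with ha
  have ha0 : 0 < a := by positivity
  obtain ⟨P, hP⟩ : ∃ P, ∀ p ≥ P, ∀ j, w f σ j p ≤ a := by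
    obtain ⟨P, hP⟩ := eventually_atTop.1 (σ.symm.injective.nat_tendsto_atTop.eventually
      ((h2.eventually (gt_mem_nhds (half_pos ha0))).and
        ((h1.comp (tendsto_add_atTop_nat 1)).eventually_gt_atTop 0)))
    refine ⟨P, fun p hp j => ?_⟩
    obtain ⟨x, y⟩ := hP p hp
    unfold w; split_ifs with e
    · simp only [Function.comp] at y
      have z := F_lt (f := f) (σ.symm p)
      rw [e, pow_succ] at z
      rw [div_lt_iff₀ y] at x
      rw [div_le_iff₀ (by positivity)]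
      nlinarith
    · exact ha0.le
  filter_upwards [hD, eventually_ge_atTop P, (tendsto_pow_atTop_atTop_of_one_lt
    (one_lt_two (α := ℝ))).eventually_ge_atTop (8 * (D + 1) / ε ^ 2)] with k k1 k2 k3
  set N := 2 ^ k with hN
  have N0 : 0 < N := Nat.two_pow_pos k
  have N1 : (N : ℝ) = 2 ^ k := by simp [hN]
  have N2 : (0 : ℝ) < N := by exact_mod_cast N0
  let B : Finset ℕ := (Finset.range N ×ˢ Finset.range N).image fun z => pt k z.1 z.2
  have inj : Set.InjOn (fun z : ℕ × ℕ => pt k z.1 z.2) ↑(Finset.range N ×ˢ Finset.range N) := by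
    rintro ⟨t, y⟩ h ⟨t', y'⟩ h' e
    simp only [Finset.coe_product, Finset.coe_range, mem_prod, mem_Iio] at h h' e
    have := congrArg Nat.sqrt e
    rw [sqrt_pt h.2, sqrt_pt h'.2] at this
    obtain rfl : t = t' := by omega
    simpa [pt] using e
  have sB : ∀ j, ∑ t ∈ Finset.range N, ∑ y ∈ Finset.range N, w f σ j (pt k t y) ≤ 2 := by
    intro j
    rw [← Finset.sum_product' (f := fun t y => w f σ j (pt k t y)),
      ← Finset.sum_image (f := w f σ j) inj, ← m_fin h1]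
    exact m_le_two h0 h1 _ _
  let H := (B.image fun p => cl f (σ.symm p)).filter fun j => ε ≤ ∑ p ∈ B, w f σ j p
  have cH : H.card ≤ (D + 1) * N := by
    have x : ∀ j ∈ H, N ≤ (B.filter fun p => cl f (σ.symm p) = j).card * (D + 1) := by
      intro j hj
      by_contra c
      have := k1 j (B.filter fun p => cl f (σ.symm p) = j) (fun p hp => by
        obtain ⟨⟨t, y⟩, h, rfl⟩ := Finset.mem_image.1 (Finset.mem_filter.1 hp).1
        simp only [Finset.mem_product, Finset.mem_range] at h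
        rw [sqrt_pt h.2, log_eq h.1]) (not_le.1 c).le
      rw [Finset.sum_filter_of_ne fun p _ h => by by_contra c; exact h (if_neg c)] at this
      exact absurd (Finset.mem_filter.1 hj).2 (not_le.2 this)
    have y := Finset.card_nsmul_le_sum H _ N x
    rw [← Finset.sum_mul] at y
    have z : ∑ j ∈ H, (B.filter fun p => cl f (σ.symm p) = j).card ≤ N * N := by
      rw [Finset.sum_card_fiberwise_eq_card_filter]
      exact (Finset.card_filter_le _ _).trans (Finset.card_image_le.trans (by simp))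
    have : H.card * N ≤ (D + 1) * N * N := by
      calc H.card * N ≤ N * N * (D + 1) := le_trans y (Nat.mul_le_mul_right _ z)
        _ = (D + 1) * N * N := by ring
    exact Nat.le_of_mul_le_mul_right this N0
  obtain ⟨g, g1, g2⟩ := select H N N0 (fun j t y => w f σ j (pt k t y)) (Finset.range N) fun _ => 0
  have bd : ∑ j ∈ H, (0 + ∑ t ∈ Finset.range N, w f σ j (pt k t (g t))) ^ 2 ≤ ε ^ 2 := by
    refine g2.trans ((Finset.sum_le_card_nsmul _ _ (4 / N ^ 2 + 2 * a / N) fun j _ => ?_).trans ?_)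
    · rw [zero_add, ← Finset.sum_div, ← Finset.sum_div]
      have p0 : 0 ≤ ∑ t ∈ Finset.range N, ∑ y ∈ Finset.range N, w f σ j (pt k t y) :=
        Finset.sum_nonneg fun _ _ => Finset.sum_nonneg fun _ _ => w_nonneg h0 σ _ _
      have p1 : ∑ t ∈ Finset.range N, ∑ y ∈ Finset.range N, w f σ j (pt k t y) ^ 2 ≤
          a * ∑ t ∈ Finset.range N, ∑ y ∈ Finset.range N, w f σ j (pt k t y) := by
        rw [Finset.mul_sum]
        refine Finset.sum_le_sum fun t _ => ?_
        rw [Finset.mul_sum]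
        refine Finset.sum_le_sum fun y _ => ?_
        rw [sq]
        refine mul_le_mul_of_nonneg_right (hP _ ?_ _) (w_nonneg h0 σ _ _)
        have b2 := Nat.lt_two_pow_self (n := k)
        have := Nat.le_self_pow (n := 2) (by norm_num) (2 ^ k - 1 + t)
        unfold pt; omega
      have p2 := sB j
      rw [div_pow]
      gcongr
      · nlinarith
      · nlinarith
    · have c : (H.card : ℝ) ≤ (D + 1) * N := by exact_mod_cast cH
      rw [nsmul_eq_mul]
      refine (mul_le_mul_of_nonneg_right c (by positivity)).trans ?_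
      rw [← N1, div_le_iff₀ (by positivity)] at k3
      have e : ((D : ℝ) + 1) * N * (4 / N ^ 2 + 2 * a / N) = 4 * (D + 1) / N + ε ^ 2 / 2 := by
        rw [ha]; field_simp; ring
      have : 4 * ((D : ℝ) + 1) / N ≤ ε ^ 2 / 2 := by rw [div_le_iff₀ N2]; linarith
      rw [e]; linarith
  refine ⟨(Finset.range N).image fun t => pt k t (g t), fun t ht => ⟨pt k t (g t), by
    simpa using ⟨t, ht, rfl⟩, sqrt_pt (g1 t)⟩, fun j => ?_⟩
  by_cases hj : j ∈ H
  · refine (Finset.sum_image_le_of_nonneg fun p _ => w_nonneg h0 σ _ _).trans ?_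
    have := (Finset.single_le_sum (f := fun j =>
      (0 + ∑ t ∈ Finset.range N, w f σ j (pt k t (g t))) ^ 2) (fun _ _ => sq_nonneg _) hj).trans bd
    rw [zero_add] at this
    exact le_trans (le_abs_self _) (abs_le_of_sq_le_sq' this hε.le |> fun h => abs_le.2 h)
  · have sub : ((Finset.range N).image fun t => pt k t (g t)) ⊆ B := fun p hp => by
      obtain ⟨t, ht, rfl⟩ := Finset.mem_image.1 hp
      exact Finset.mem_image.2 ⟨(t, g t), Finset.mem_product.2 ⟨ht, Finset.mem_range.2 (g1 t)⟩, rfl⟩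
    refine (Finset.sum_le_sum_of_subset_of_nonneg sub fun p _ _ => w_nonneg h0 σ _ _).trans ?_
    by_contra c
    refine hj (Finset.mem_filter.2 ⟨?_, (not_le.1 c).le⟩)
    by_contra c2
    rw [Finset.sum_eq_zero (f := w f σ j) fun p hp =>
      if_neg fun e => c2 (Finset.mem_image.2 ⟨p, hp, e⟩)] at c
    exact c hε.le

end

theorem result : ∃ I : Set (Set ℕ), IsIdeal I ∧ RB I Z ∧ RB Z I ∧ Kat I Z ∧ Kat Z I ∧
    ∀ (σ : ℕ ≃ ℕ) (f : ℕ → ℝ), EUWeight f → ¬ ∀ A, A ∈ I ↔ σ ⁻¹' A ∈ EU f := by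
  classical
  have K : ∀ {I J}, RB I J → Kat I J := fun ⟨φ, _, h⟩ => ⟨φ, fun A hA => (h A).1 hA⟩
  refine ⟨I, I_ideal, RB_IZ, RB_ZI, K RB_IZ, K RB_ZI, ?_⟩
  rintro σ f ⟨h0, h1, h2⟩ h
  have hI : ∀ A, A ∈ I ↔ Tendsto (m h1 (σ ⁻¹' A)) atTop (𝓝 0) := fun A =>
    (h A).trans (EU_iff h0 h1 _)
  obtain ⟨k, hk, hG⟩ := extraction_forall_of_frequently fun n : ℕ =>
    (choose_graph h0 h1 σ h2 (fun A => (hI A).1) (ε := (1 / 2) ^ n) (by positivity)).frequently
  choose G g1 g2 using hG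
  have sm : Summable fun n : ℕ => (1 / 2 : ℝ) ^ n := summable_geometric_two
  have p0 : ∀ j n, 0 ≤ ∑ p ∈ G n, w f σ j p := fun j n =>
    Finset.sum_nonneg fun _ _ => w_nonneg h0 σ _ _
  have hA : (⋃ n, (G n : Set ℕ)) ∈ I := by
    rw [hI]
    have t := tendsto_tsum_of_dominated_convergence (𝓕 := atTop)
      (f := fun j n => ∑ p ∈ G n, w f σ j p) (g := fun _ => 0) sm (fun n => ?_)
      (Eventually.of_forall fun j n => by rw [Real.norm_of_nonneg (p0 j n)]; exact g2 n j)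
    · rw [tsum_zero] at t
      refine squeeze_zero (m_nonneg h0 h1 _) (fun j => ?_) t
      obtain ⟨N, hN⟩ : ∃ N, ∀ i, cl f i = j → σ i ∈ ⋃ n, (G n : Set ℕ) →
          σ i ∈ (Finset.range N).biUnion G := by
        have : ∀ i, ∃ n, σ i ∈ ⋃ n, (G n : Set ℕ) → σ i ∈ G n := fun i => by
          by_cases c : σ i ∈ ⋃ n, (G n : Set ℕ)
          · obtain ⟨n, hn⟩ := mem_iUnion.1 c; exact ⟨n, fun _ => hn⟩
          · exact ⟨0, fun x => (c x).elim⟩
        choose n hn using this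
        obtain ⟨N, hN⟩ := ((cl_fin h1 j).image n).bddAbove
        exact ⟨N + 1, fun i e hi => Finset.mem_biUnion.2
          ⟨n i, Finset.mem_range.2 (Nat.lt_succ_of_le (hN ⟨i, e, rfl⟩)), hn i hi⟩⟩
      refine (m_mono h0 h1 (B := σ ⁻¹' ((Finset.range N).biUnion G : Finset ℕ)) j hN).trans ?_
      rw [m_fin]
      refine le_trans ?_ ((Summable.of_nonneg_of_le (p0 j) (fun n => g2 n j) sm).sum_le_tsum
        (Finset.range N) fun n _ => p0 j n)
      clear hN
      induction N with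
      | zero => simp
      | succ N ih =>
        rw [Finset.range_add_one, Finset.biUnion_insert, Finset.sum_insert (by simp)]
        have := Finset.sum_union_inter (s₁ := G N) (s₂ := (Finset.range N).biUnion G)
          (f := w f σ j)
        have : 0 ≤ ∑ p ∈ G N ∩ (Finset.range N).biUnion G, w f σ j p :=
          Finset.sum_nonneg fun _ _ => w_nonneg h0 σ _ _
        linarith
    · refine tendsto_const_nhds.congr' ((eventually_gt_atTop
        ((G n).sup fun p => cl f (σ.symm p))).mono fun j hj => ?_)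
      exact (Finset.sum_eq_zero fun p hp => if_neg fun e => absurd
        (Finset.le_sup (f := fun p => cl f (σ.symm p)) hp) (by rw [e]; exact not_le.2 hj)).symm
  simp only [I, mem_setOf_eq, Z_iff] at hA
  have := hA.comp hk.tendsto_atTop
  have e : d (Nat.sqrt '' ⋃ n, (G n : Set ℕ)) ∘ k = fun _ => 1 := funext fun n =>
    d_one fun t ht => image_mono (subset_iUnion (fun n => (G n : Set ℕ)) n) (g1 n t ht)
  rw [e] at this
  simpa using this

end Pool.Agent.Results.MP_8a0632_lc.NotErdosUlam
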